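import Pool.Agent.H16.PSL.Main
import Pool.Graph.R_pool_sql_team_39128cda.Results.MP_d4104f_co.PSLUpper

set_option autoImplicit false

/-!
# The least Hadwiger number of a graph with automorphism group `PSL(2,p)` is of order `p`

This answers Q2 of the problem: `m(PSL(2,p))` has order of magnitude `p` as `p` runs through
the primes.  The lower bound is new (the known ones are polynomially smaller and need a large prime
divisor of `p - 1`); the upper bound `p + 3` is a library theorem.
-/

namespace Pool.Agent.Results.MP_d4104f_co.PSLOrder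

open Filter Asymptotics

/-- `X` has a subcontraction to `K_k`: there are `k` pairwise disjoint nonempty connected vertex
sets, any two of them joined by an edge of `X` (contract each of them to one vertex, delete the
rest). -/
def HasCompleteMinor {V : Type} (X : SimpleGraph V) (k : ℕ) : Prop :=
  ∃ B : Fin k → Set V, (∀ i, (X.induce (B i)).Connected) ∧
    ∀ i j, i ≠ j → Disjoint (B i) (B j) ∧ ∃ a ∈ B i, ∃ b ∈ B j, X.Adj a b

/-- The Hadwiger number `h(X)` of a finite graph: the largest `k` such that `X` has a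
subcontraction to `K_k`. -/
noncomputable def hadwiger {V : Type} (X : SimpleGraph V) : ℕ :=
  sSup {k : ℕ | HasCompleteMinor X k}

/-- `m(G) = min {h(X) : X a finite graph with Aut X ≅ G}`. -/
noncomputable def m (G : Type) [Group G] : ℕ :=
  sInf {h : ℕ | ∃ (V : Type) (_ : Finite V) (X : SimpleGraph V),
    Nonempty ((X ≃g X) ≃* G) ∧ h = hadwiger X}

/-- the group `PSL(2,p)` -/
abbrev PSL2 (p : ℕ) : Type := Matrix.ProjectiveSpecialLinearGroup (Fin 2) (ZMod p)

/-- the order of a complete minor is at most the number of vertices -/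
theorem le_card {V : Type} [Finite V] {X : SimpleGraph V} {k : ℕ} (h : HasCompleteMinor X k) :
    k ≤ Nat.card V := by
  obtain ⟨B, h1, h2⟩ := h
  have hne : ∀ i, ∃ v, v ∈ B i := fun i => by
    obtain ⟨⟨v, hv⟩⟩ := (h1 i).nonempty
    exact ⟨v, hv⟩
  choose f hf using hne
  have hinj : Function.Injective f := by
    intro i j hij
    by_contra hne
    have h3 := hf i
    rw [hij] at h3
    exact Set.disjoint_left.1 (h2 i j hne).1 h3 (hf j)
  have := Nat.card_le_card_of_injective f hinj
  rwa [Nat.card_eq_fintype_card, Fintype.card_fin] at this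

theorem bddAbove {V : Type} [Finite V] (X : SimpleGraph V) :
    BddAbove {k : ℕ | HasCompleteMinor X k} := ⟨Nat.card V, fun _ h => le_card h⟩

/-- the set of Hadwiger numbers is nonempty -/
theorem exists_graph (p : ℕ) [Fact p.Prime] (h : 3 ≤ p) :
    ∃ (V : Type) (_ : Finite V) (X : SimpleGraph V), Nonempty ((X ≃g X) ≃* PSL2 p) := by
  have f : Finite (Projectivization (ZMod p) (Fin 2 → ZMod p)) :=
    (Projectivization.finite_iff_of_finite _ _).mpr inferInstance
  have c1 : Nat.card (Projectivization (ZMod p) (Fin 2 → ZMod p)) = p + 1 := by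
    simpa using Projectivization.card_of_finrank_two (ZMod p) (Fin 2 → ZMod p) (by simp)
  have c : 4 ≤ Nat.card (Matrix.ProjectiveSpecialLinearGroup (Fin 2) (ZMod p)) := by
    obtain ⟨x⟩ := (Nat.card_pos_iff.mp (c1.symm ▸ Nat.succ_pos p :
      0 < Nat.card (Projectivization (ZMod p) (Fin 2 → ZMod p)))).1
    have := Nat.card_le_card_of_surjective (fun g => g • x) (MulAction.exists_smul_eq
      (Matrix.ProjectiveSpecialLinearGroup (Fin 2) (ZMod p)) x)
    omega
  let e := (Finite.equivFinOfCardEq c1).symm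
  exact ⟨_, inferInstance, _, Pool.Agent.H.MP_d4104f_co.gr_aut c e⟩

theorem upper (p : ℕ) [Fact p.Prime] (h : 3 ≤ p) : m (PSL2 p) ≤ p + 3 :=
  Pool.Agent.Results.MP_d4104f_co.PSLUpper.result p h

/-- There is a constant `c > 0` with `c p ≤ m(PSL(2,p)) ≤ p + 3` for all primes `p ≥ 3`; in
particular `m(PSL(2,p))` has the order of magnitude of `p` as `p → ∞` through the primes. -/
theorem result :
    (∃ c : ℝ, 0 < c ∧ ∀ p : ℕ, p.Prime → 3 ≤ p →
      c * p ≤ m (PSL2 p) ∧ m (PSL2 p) ≤ p + 3) ∧
    (fun p : ℕ => (m (PSL2 p) : ℝ)) =Θ[atTop ⊓ 𝓟 {p : ℕ | p.Prime}] (fun p : ℕ => (p : ℝ)) := by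
  have h1 : ∃ c : ℝ, 0 < c ∧ ∀ p : ℕ, p.Prime → 3 ≤ p →
      c * p ≤ m (PSL2 p) ∧ m (PSL2 p) ≤ p + 3 := by
    obtain ⟨c0, hc0, hmain⟩ := Pool.Agent.H16.PSL.main_bound
    refine ⟨1 / (2 * c0), by positivity, ?_⟩
    intro p hp hp3
    have := Fact.mk hp
    refine ⟨?_, upper p hp3⟩
    -- lower bounds for every graph
    have hlow : ∀ (V : Type) [Finite V] (X : SimpleGraph V), Nonempty ((X ≃g X) ≃* PSL2 p) →
        1 ≤ hadwiger X ∧ p / c0 ≤ hadwiger X := by
      intro V _ X he
      constructor
      · have hne : Nonempty V := by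
          by_contra hemp
          rw [not_nonempty_iff] at hemp
          obtain ⟨e⟩ := he
          have h2 : Subsingleton (X ≃g X) := ⟨fun a b => by
            ext v
            exact (hemp.false v).elim⟩
          have h3 : Subsingleton (PSL2 p) := e.symm.toEquiv.subsingleton
          obtain ⟨x⟩ : Nonempty (Projectivization (ZMod p) (Fin 2 → ZMod p)) := inferInstance
          have c1 : Nat.card (Projectivization (ZMod p) (Fin 2 → ZMod p)) = p + 1 := by
            simpa using Projectivization.card_of_finrank_two (ZMod p) (Fin 2 → ZMod p) (by simp)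
          have h4 := Nat.card_le_card_of_surjective (fun g : PSL2 p => g • x)
            (MulAction.exists_smul_eq
              (Matrix.ProjectiveSpecialLinearGroup (Fin 2) (ZMod p)) x)
          have h5 : Nat.card (PSL2 p) = 1 := Nat.card_unique
          omega
        obtain ⟨v⟩ := hne
        refine le_csSup (bddAbove X) ⟨fun _ => {v}, fun _ =>
          Pool.Agent.Helper999.HM.conn_singleton X v, fun i j hij => ?_⟩
        exact absurd (Subsingleton.elim i j) hij
      · obtain ⟨B, hB1, hB2, hB3⟩ := hmain p (p / c0) (Nat.mul_div_le p c0) V X he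
        exact le_csSup (bddAbove X) ⟨B, hB1, fun i j hij => ⟨hB2 i j hij, hB3 i j hij⟩⟩
    have h2 : 1 ≤ m (PSL2 p) ∧ p / c0 ≤ m (PSL2 p) := by
      obtain ⟨V, _, X, hX⟩ := exists_graph p hp3
      have hne : {h : ℕ | ∃ (V : Type) (_ : Finite V) (X : SimpleGraph V),
          Nonempty ((X ≃g X) ≃* PSL2 p) ∧ h = hadwiger X}.Nonempty :=
        ⟨_, V, inferInstance, X, hX, rfl⟩
      constructor
      · apply le_csInf hne
        rintro _ ⟨V, _, X, hX, rfl⟩
        exact (hlow V X hX).1
      · apply le_csInf hne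
        rintro _ ⟨V, _, X, hX, rfl⟩
        exact (hlow V X hX).2
    have h3 : p < 2 * c0 * m (PSL2 p) := by
      have h4 := Nat.lt_mul_div_succ p hc0
      calc p < c0 * (p / c0 + 1) := h4
        _ ≤ c0 * (m (PSL2 p) + m (PSL2 p)) := by
            apply Nat.mul_le_mul_left
            omega
        _ = 2 * c0 * m (PSL2 p) := by ring
    have h5 : (p : ℝ) ≤ 2 * c0 * m (PSL2 p) := by exact_mod_cast h3.le
    have hc0' : (0 : ℝ) < c0 := by exact_mod_cast hc0
    rw [div_mul_eq_mul_div, one_mul, div_le_iff₀ (by positivity)]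
    linarith
  refine ⟨h1, ?_⟩
  obtain ⟨c, hc, h⟩ := h1
  constructor
  · apply IsBigO.of_bound 2
    rw [eventually_inf_principal]
    filter_upwards [eventually_ge_atTop 3] with p hp3 hp
    have h2 := (h p hp hp3).2
    rw [Real.norm_of_nonneg (Nat.cast_nonneg _), Real.norm_of_nonneg (Nat.cast_nonneg _)]
    have h4 : m (PSL2 p) ≤ 2 * p := by omega
    exact_mod_cast h4
  · apply IsBigO.of_bound (1 / c)
    rw [eventually_inf_principal]
    filter_upwards [eventually_ge_atTop 3] with p hp3 hp
    have h2 := (h p hp hp3).1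
    rw [Real.norm_of_nonneg (Nat.cast_nonneg _), Real.norm_of_nonneg (Nat.cast_nonneg _)]
    rw [div_mul_eq_mul_div, one_mul, le_div_iff₀ hc]
    linarith

end Pool.Agent.Results.MP_d4104f_co.PSLOrder
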